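import Pool.Agent.H61.KV.TE
import Pool.Agent.H61.KV.TS

/-!
# Module EOV of the board kv_modules (MP_c11ac4_gt)
-/

set_option autoImplicit false

open Topology Set
open Pool.Agent.H59 Pool.Agent.H64.LB Pool.Agent.H61.KU

namespace Pool.Agent.H48.KV.EOV

open Pool.Agent.H61.KV

theorem interior_nonempty {V : Type} [NormedAddCommGroup V] [NormedSpace ℝ V]
    [FiniteDimensional ℝ V] (C : Set V) (hC : IsCC C) (hs : Submodule.span ℝ C = ⊤) :
    (interior C).Nonempty := by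
  have hcv : Convex ℝ C := by
    intro x hx y hy a b ha hb _
    exact hC.add _ (hC.smul a ha x hx) _ (hC.smul b hb y hy)
  rw [hcv.interior_nonempty_iff_affineSpan_eq_top]
  have h1 : (affineSpan ℝ (insert (0 : V) C) : Set V) = Submodule.span ℝ C :=
    affineSpan_insert_zero C
  rw [Set.insert_eq_of_mem hC.zero, hs] at h1
  apply SetLike.coe_injective
  rw [h1]
  simp

theorem zero_of_interior {V : Type} [NormedAddCommGroup V] [NormedSpace ℝ V] (C : Set V) (q : V)
    (hq : q ∈ interior C) (ξ : V →ₗ[ℝ] ℝ) (hξ : ∀ r ∈ C, 0 ≤ ξ r) (h0 : ξ q = 0) : ξ = 0 := by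
  rw [mem_interior_iff_mem_nhds, Metric.mem_nhds_iff] at hq
  obtain ⟨ε, hε, hb⟩ := hq
  have key : ∀ v : V, 0 ≤ ξ v := by
    intro v
    have hv : 0 < ‖v‖ + 1 := by positivity
    have hd : 0 < ε / (2 * (‖v‖ + 1)) := by positivity
    have h1 : q + (ε / (2 * (‖v‖ + 1))) • v ∈ C := by
      apply hb
      rw [Metric.mem_ball, dist_eq_norm, add_sub_cancel_left, norm_smul, Real.norm_of_nonneg hd.le]
      rw [div_mul_eq_mul_div, div_lt_iff₀ (by positivity)]
      nlinarith [norm_nonneg v]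
    have h2 := hξ _ h1
    rw [map_add, map_smul, h0, zero_add, smul_eq_mul] at h2
    exact nonneg_of_mul_nonneg_right h2 hd
  ext v
  have h1 := key v
  have h2 := key (-v)
  rw [map_neg] at h2
  have h3 : ξ v = 0 := by linarith
  simpa using h3

theorem pf_EOV (h1 : T_ST) (h2 : T_CNC) (h3 : T_FTU) (h4 : T_EXP) : T_EOV := by
  intro V _ _ _ m hm p hp
  obtain ⟨hcc, hspan, -⟩ := h2 V m hm
  obtain ⟨q, hq⟩ := interior_nonempty (Cn m) hcc hspan
  have hqC : q ∈ Cn m := interior_subset hq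
  obtain ⟨g, hg⟩ := h1 V m hm p hp q hqC
  obtain ⟨f1, f2, -, -⟩ := h3 V (Cn m) p hcc hp.1
  refine ⟨g, (f1 q g hg).2.2, ?_⟩
  intro ξ hξ hp0 hg0
  have h5 : ξ (q - g) = 0 := h4 V (Cn m) p ξ hξ hp0 _ (Submodule.subset_span (f2 q g hqC hg))
  rw [map_sub, hg0, sub_zero] at h5
  exact zero_of_interior (Cn m) q hq ξ hξ h5

end Pool.Agent.H48.KV.EOV
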