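import Pool.Agent.H61.KV.TF

/-!
# Module LIN of the board kv_modules (MP_c11ac4_gt)
-/

set_option autoImplicit false

open Topology Set

namespace Pool.Agent.H48.KV.LIN

open Pool.Agent.H61.KV

theorem pf_LIN : T_LIN := by
  intro f u w hf haff
  have hcont : Continuous f := hf.locallyLipschitz.continuous
  -- the function on the line
  set h : ℝ → ℝ := fun s => f (u + s • w) - f u with hh
  have hodd : ∀ s, h (-s) = - h s := by
    intro s
    have h1 := haff s
    simp only [hh]
    rw [neg_smul, ← sub_eq_add_neg]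
    linarith
  have hle : ∀ l s : ℝ, 0 ≤ l → l ≤ 1 → h (l * s) ≤ l * h s := by
    intro l s hl hl1
    have h1 := hf.2 (mem_univ u) (mem_univ (u + s • w)) (sub_nonneg.2 hl1) hl
      (by ring : (1 - l) + l = 1)
    have h2 : (1 - l) • u + l • (u + s • w) = u + (l * s) • w := by module
    rw [h2, smul_eq_mul, smul_eq_mul] at h1
    simp only [hh]
    linarith
  have heq : ∀ l s : ℝ, 0 ≤ l → l ≤ 1 → h (l * s) = l * h s := by
    intro l s hl hl1
    have h1 := hle l s hl hl1
    have h2 := hle l (-s) hl hl1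
    rw [mul_neg, hodd, hodd] at h2
    linarith
  have hpos : ∀ s : ℝ, 0 ≤ s → h s = s * h 1 := by
    intro s hs
    rcases le_total s 1 with h1 | h1
    · have h2 := heq s 1 hs h1
      rwa [mul_one] at h2
    · have hs0 : 0 < s := lt_of_lt_of_le one_pos h1
      have h2 := heq s⁻¹ s (inv_nonneg.2 hs) (inv_le_one_of_one_le₀ h1)
      rw [inv_mul_cancel₀ hs0.ne'] at h2
      rw [h2, ← mul_assoc, mul_inv_cancel₀ hs0.ne', one_mul]
  have hlin : ∀ s : ℝ, h s = s * h 1 := by
    intro s
    rcases le_total 0 s with h1 | h1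
    · exact hpos s h1
    · have h2 := hpos (-s) (neg_nonneg.2 h1)
      rw [hodd] at h2
      linarith
  have hline : ∀ s : ℝ, f (u + s • w) = f u + s * h 1 := by
    intro s
    have h1 := hlin s
    simp only [hh] at h1
    simp only [hh]
    linarith
  have key : ∀ (u' : F4) (s : ℝ), f (u' + s • w) ≤ f u' + s * h 1 := by
    intro u' s
    have ht : Filter.Tendsto
        (fun l : ℝ => (1 - l) * f ((1 - l)⁻¹ • (u' - l • u)) + l * f u + s * h 1)
        (𝓝[>] 0) (𝓝 (f u' + s * h 1)) := by
      have hc : ContinuousAt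
          (fun l : ℝ => (1 - l) * f ((1 - l)⁻¹ • (u' - l • u)) + l * f u + s * h 1) 0 := by
        have h0 : ContinuousAt (fun l : ℝ => (1 - l)⁻¹) 0 := by
          have h01 : ContinuousAt (fun l : ℝ => 1 - l) 0 := by fun_prop
          exact h01.inv₀ (by norm_num)
        have h02 : ContinuousAt (fun l : ℝ => u' - l • u) 0 := by fun_prop
        have h1 : ContinuousAt (fun l : ℝ => (1 - l)⁻¹ • (u' - l • u)) 0 := h0.smul h02
        have h2 : ContinuousAt (fun l : ℝ => f ((1 - l)⁻¹ • (u' - l • u))) 0 :=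
          ContinuousAt.comp' hcont.continuousAt h1
        fun_prop
      have h3 := hc.tendsto.mono_left (nhdsWithin_le_nhds (s := Ioi (0 : ℝ)))
      simpa using h3
    refine ge_of_tendsto ht ?_
    filter_upwards [Ioo_mem_nhdsGT (zero_lt_one (α := ℝ))] with l hl
    have hl0 : 0 < l := hl.1
    have hl1 : 0 < 1 - l := sub_pos.2 hl.2
    have h1 := hf.2 (mem_univ ((1 - l)⁻¹ • (u' - l • u))) (mem_univ (u + (s / l) • w)) hl1.le
      hl0.le (by ring : (1 - l) + l = 1)
    have h2 : (1 - l) • ((1 - l)⁻¹ • (u' - l • u)) + l • (u + (s / l) • w) = u' + s • w := by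
      rw [smul_smul, mul_inv_cancel₀ hl1.ne', one_smul, smul_add, smul_smul,
        mul_div_cancel₀ s hl0.ne']
      module
    rw [h2, smul_eq_mul, smul_eq_mul, hline] at h1
    have h3 : l * (f u + s / l * h 1) = l * f u + s * h 1 := by
      rw [mul_add, ← mul_assoc, mul_div_cancel₀ s hl0.ne']
    rw [h3] at h1
    linarith
  refine ⟨h 1, fun u' s => le_antisymm (key u' s) ?_⟩
  have h1 := key (u' + s • w) (-s)
  have h2 : u' + s • w + (-s) • w = u' := by module
  rw [h2] at h1
  linarith

end Pool.Agent.H48.KV.LIN
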